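import Pool.Agent.U762.DX.Loc
import Pool.Agent.H986R2.K4.Ch
import Pool.Agent.W125.SD.SUnit
import Pool.Agent.W347.SD.SB2
import Pool.Agent.W190.C3

set_option autoImplicit false

/-! # Counting the bad zeros of the derivatives of xi -/

namespace Pool.Agent.U762.DX

open Complex Filter Topology MeasureTheory Set
open Pool.Agent.H24R2.JP (XX HH Om)
open Pool.Agent.H24R2.DZ (bad hc)
open Pool.Agent.W190 (Dens ZF mem_ZF)
open H353 (FF mu mu_pos)

/-- descent along Jensen circles -/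
theorem dsc (r0 κ T0 : ℝ) (hr0 : 0 < r0) (hr1 : r0 ≤ 1) (hκ : κ * r0 < 2) (hk0 : 0 < κ) :
    ∃ N : ℕ, ∀ n : ℕ, N ≤ n → ∀ s : ℂ, 0 ≤ s.im → s.im ≤ Real.exp (κ * n) → bad n s →
      Real.exp (n / 25) < s.im ∧ ∃ (z : ℂ) (m : ℕ), bad m z ∧ |s.im - z.im| ≤ n / 2 ∧ T0 ≤ z.im ∧
        r0 * Om z.im ≤ m ∧ (m : ℝ) ≤ 2 * r0 * Om z.im := by
  obtain ⟨N0, hN0⟩ := Pool.Agent.H24R2.DZ.lowX
  set p : ℝ := r0 * κ / 2 with hp
  have hp0 : 0 < p := by positivity
  have hp1 : p < 1 := by rw [hp]; linarith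
  set δ : ℝ := (1 - p) / 2 with hδ
  have hδ0 : 0 < δ := by rw [hδ]; linarith
  have hδ1 : δ ≤ 1 / 2 := by rw [hδ]; linarith
  have hδp : (1 + δ) * p < 1 := by
    rw [hδ]
    nlinarith
  refine ⟨max N0 (max 1250 (max ⌈2 * T0⌉₊ (max ⌈25 / δ⌉₊ ⌈100 + 100 / r0⌉₊))), ?_⟩
  intro n hn
  have hn0 : N0 ≤ n := le_trans (le_max_left _ _) hn
  have hn' := le_trans (le_max_right _ _) hn
  have hn1 : 1250 ≤ n := le_trans (le_max_left _ _) hn'
  have hn'' := le_trans (le_max_right _ _) hn'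
  have hn2 : ⌈2 * T0⌉₊ ≤ n := le_trans (le_max_left _ _) hn''
  have hn''' := le_trans (le_max_right _ _) hn''
  have hn3 : ⌈25 / δ⌉₊ ≤ n := le_trans (le_max_left _ _) hn'''
  have hn4 : ⌈100 + 100 / r0⌉₊ ≤ n := le_trans (le_max_right _ _) hn'''
  have hn1' : (1250 : ℝ) ≤ n := by exact_mod_cast hn1
  have hn2' : 2 * T0 ≤ n := Nat.ceil_le.1 hn2
  have hn3' : 25 / δ ≤ n := Nat.ceil_le.1 hn3
  have hn4' : 100 + 100 / r0 ≤ n := Nat.ceil_le.1 hn4
  clear hn hn' hn'' hn''' hn1 hn2 hn3 hn4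
  have hexp : (n : ℝ) ≤ Real.exp (n / 25) := by
    have h1 := Real.quadratic_le_exp_of_nonneg (x := (n : ℝ) / 25) (by positivity)
    nlinarith
  intro s hs0 hs1 hb
  have hlo : Real.exp (n / 25) < s.im := by
    by_contra hcon
    push Not at hcon
    exact hN0 n hn0 s (by rw [abs_of_nonneg hs0]; exact hcon) hb
  refine ⟨hlo, ?_⟩
  set t := s.im with ht
  have htn : (n : ℝ) ≤ t := hexp.trans hlo.le
  have ht0 : 0 < t := by linarith
  have hO1 : (n : ℝ) / 50 < Om t := by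
    unfold Om
    have := (Real.lt_log_iff_exp_lt ht0).2 hlo
    linarith
  have hO2 : Om t ≤ κ * n / 2 := by
    unfold Om
    have := (Real.log_le_iff_le_exp ht0).2 hs1
    linarith
  set x : ℝ := (1 + δ) * r0 * Om t with hx
  have hO0 : 0 < Om t := by linarith
  have hx0 : 0 < x := by positivity
  have hxn : x ≤ n := by
    have h1 : x ≤ (1 + δ) * r0 * (κ * n / 2) := by
      rw [hx]
      apply mul_le_mul_of_nonneg_left hO2
      positivity
    have h2 : (1 + δ) * r0 * (κ * n / 2) = ((1 + δ) * p) * n := by rw [hp]; ring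
    rw [h2] at h1
    nlinarith
  have hmn : ⌈x⌉₊ ≤ n := Nat.ceil_le.2 hxn
  set m := ⌈x⌉₊ with hm
  have hm1 : x ≤ m := Nat.le_ceil x
  have hm2 : (m : ℝ) < x + 1 := Nat.ceil_lt_add_one hx0.le
  obtain ⟨k, hk⟩ := Nat.exists_eq_add_of_le hmn
  rw [hk] at hb
  obtain ⟨z, hz, hzi⟩ := Pool.Agent.H986R2.K4.ChAux.desc
    (Pool.Agent.H24R2.DZ.cir Pool.Agent.H24R2.DZ.strip) Pool.Agent.H24R2.DZ.strip m k s hb
  have hkn : (k : ℝ) ≤ n := by
    have : k ≤ n := by omega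
    exact_mod_cast this
  have hz2 := abs_le.1 hzi
  have hz3 : t / 2 ≤ z.im := by linarith
  have hz4 : z.im ≤ 2 * t := by linarith
  have hz0 : 0 < z.im := by linarith
  have hlog2 : Real.log 2 ≤ 1 := by
    have := Real.log_two_lt_d9
    linarith
  have hOz1 : Om z.im ≤ Om t + 1 / 2 := by
    unfold Om
    have h1 := Real.log_le_log hz0 hz4
    rw [Real.log_mul (by norm_num) ht0.ne'] at h1
    linarith
  have hOz2 : Om t - 1 / 2 ≤ Om z.im := by
    unfold Om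
    have h1 := Real.log_le_log (by positivity) hz3
    rw [Real.log_div ht0.ne' (by norm_num)] at h1
    linarith
  have hT : T0 ≤ z.im := by linarith
  refine ⟨z, m, hz, ?_, hT, ?_, ?_⟩
  · refine hzi.trans ?_
    linarith
  · -- lower bound
    have h1 : 25 ≤ n * δ := by
      rw [div_le_iff₀ hδ0] at hn3'
      exact hn3'
    have h2 : Om z.im ≤ (1 + δ) * Om t := by nlinarith
    calc r0 * Om z.im ≤ r0 * ((1 + δ) * Om t) := mul_le_mul_of_nonneg_left h2 hr0.le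
      _ = x := by rw [hx]; ring
      _ ≤ m := hm1
  · -- upper bound
    have h1 : 100 * r0 + 100 ≤ n * r0 := by
      have h2 := mul_le_mul_of_nonneg_right hn4' hr0.le
      have h3 : (100 + 100 / r0) * r0 = 100 * r0 + 100 := by field_simp
      linarith
    have h4 : 2 * r0 + 2 ≤ r0 * Om t := by nlinarith
    have h5 : x ≤ 3 / 2 * (r0 * Om t) := by
      rw [hx]
      have : 0 < r0 * Om t := by positivity
      nlinarith
    have h6 : r0 * (Om t - 1 / 2) ≤ r0 * Om z.im := mul_le_mul_of_nonneg_left hOz2 hr0.le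
    nlinarith

/-- near every bad zero there is a zero of zeta far from the line -/
theorem near_zero (y κ : ℝ) (hy : 0 ≤ y) (hy1 : y < 1 / 2) (hκ : κ * y < 2) (hk0 : 0 < κ) :
    ∃ N : ℕ, ∀ n : ℕ, N ≤ n → ∀ s : ℂ, 0 ≤ s.im → s.im ≤ Real.exp (κ * n) → bad n s →
      Real.exp (n / 25) < s.im ∧ ∃ ρ : ℂ, FF ρ = 0 ∧ 1 / 2 + y ≤ ρ.re ∧ |ρ.im - s.im| ≤ n := by
  obtain ⟨r0, hr, hr1, hκr⟩ : ∃ r0 : ℝ, y < r0 ∧ r0 ≤ 1 ∧ κ * r0 < 2 := by
    have hy2 : y < 2 / κ := by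
      rw [lt_div_iff₀ hk0]
      linarith
    have hm : y < min 1 (2 / κ) := lt_min (by linarith) hy2
    refine ⟨(y + min 1 (2 / κ)) / 2, by linarith, ?_, ?_⟩
    · have := min_le_left (1 : ℝ) (2 / κ)
      linarith
    · have h3 := min_le_right (1 : ℝ) (2 / κ)
      have h4 : (y + min 1 (2 / κ)) / 2 < 2 / κ := by linarith
      rw [lt_div_iff₀ hk0] at h4
      linarith
  obtain ⟨R2, T0, hR2, hT0, hwin⟩ := locwin y r0 hy hy1 hr hr1
  obtain ⟨N, hN⟩ := dsc r0 κ T0 (by linarith) hr1 hκr hk0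
  refine ⟨max N ⌈2 * R2⌉₊, fun n hn s hs0 hs1 hb => ?_⟩
  obtain ⟨h1, z, m, hz, h2, h3, h4, h5⟩ := hN n ((le_max_left _ _).trans hn) s hs0 hs1 hb
  refine ⟨h1, ?_⟩
  have hnR : 2 * R2 ≤ n := Nat.ceil_le.1 ((le_max_right _ _).trans hn)
  by_contra hcon
  push Not at hcon
  refine hwin z.im m h3 h4 h5 (fun ρ hρ1 hρ2 => ?_) z rfl hz
  have h6 := hcon ρ hρ1 hρ2
  have h7 : |ρ.im - s.im| ≤ |ρ.im - z.im| + |z.im - s.im| := abs_sub_le _ _ _
  rw [abs_sub_comm z.im s.im] at h7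
  linarith

/-- a weighted covering bound -/
theorem cover {α β : Type*} (S : Finset α) (J : Finset β) (P : β → α → Prop) [∀ b a, Decidable (P b a)]
    (w : α → ℝ) (B : ℝ) (hw : ∀ a, 0 ≤ w a) (h : ∀ a ∈ S, ∃ b ∈ J, P b a)
    (hB : ∀ b ∈ J, ∑ a ∈ S.filter (P b), w a ≤ B) : ∑ a ∈ S, w a ≤ J.card * B := by
  have h1 : ∑ a ∈ S, w a ≤ ∑ a ∈ S, ∑ b ∈ J, if P b a then w a else 0 := by
    refine Finset.sum_le_sum fun a ha => ?_
    obtain ⟨b, hb, hP⟩ := h a ha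
    have h2 : (if P b a then w a else 0) ≤ ∑ b ∈ J, if P b a then w a else 0 :=
      Finset.single_le_sum (f := fun b => if P b a then w a else 0) (fun b _ => by
        show (0 : ℝ) ≤ if P b a then w a else 0
        split_ifs
        · exact hw a
        · exact le_rfl) hb
    rwa [if_pos hP] at h2
  refine h1.trans ?_
  rw [Finset.sum_comm]
  calc ∑ b ∈ J, ∑ a ∈ S, (if P b a then w a else 0) = ∑ b ∈ J, ∑ a ∈ S.filter (P b), w a := by
        refine Finset.sum_congr rfl fun b _ => ?_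
        rw [Finset.sum_filter]
    _ ≤ ∑ _b ∈ J, B := Finset.sum_le_sum hB
    _ = J.card * B := by rw [Finset.sum_const, nsmul_eq_mul]

/-- zeros in unit windows, high up -/
theorem unitw (κ : ℝ) (hκ : 0 ≤ κ) : ∃ C : ℝ, ∃ N : ℕ, 0 < C ∧ ∀ n : ℕ, N ≤ n → ∀ (t : ℝ) (S : Finset ℂ),
    (∀ s ∈ S, |s.im - t| ≤ 1 ∧ iteratedDeriv n XX s = 0 ∧ Real.exp (n / 25) < s.im ∧
      s.im ≤ Real.exp (κ * n)) →
    ∑ s ∈ S, (analyticOrderNatAt (iteratedDeriv n XX) s : ℝ) ≤ C * n := by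
  obtain ⟨C, T0, hC, hT0, hU⟩ := Pool.Agent.W125.SD.sunit Pool.Agent.W347.SD.sb2
  have e1 : ∀ᶠ n : ℕ in atTop, T0 + 1 ≤ Real.exp ((n : ℝ) / 25) := by
    have h1 : Tendsto (fun n : ℕ => Real.exp ((n : ℝ) / 25)) atTop atTop :=
      Real.tendsto_exp_atTop.comp (tendsto_natCast_atTop_atTop.atTop_div_const (by norm_num))
    exact h1.eventually_ge_atTop _
  obtain ⟨N, hN⟩ := eventually_atTop.1 (e1.and (eventually_ge_atTop 100))
  refine ⟨C * (κ + 1), N, by positivity, fun n hn t S hS => ?_⟩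
  obtain ⟨hn1, hn2⟩ := hN n hn
  have hn100 : (100 : ℝ) ≤ n := by exact_mod_cast hn2
  rcases S.eq_empty_or_nonempty with h | ⟨s0, hs0⟩
  · rw [h, Finset.sum_empty]
    positivity
  obtain ⟨h1, h2, h3, h4⟩ := hS s0 hs0
  rw [abs_le] at h1
  have ht1 : Real.exp (n / 25) - 1 ≤ t := by linarith
  have ht2 : t ≤ Real.exp (κ * n) + 1 := by linarith
  have hT : T0 ≤ t := by linarith
  have ht0 : 0 < t := by linarith
  have hlow : Real.exp (n / 60) ≤ t := by
    refine le_trans ?_ ht1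
    have e2 : (n : ℝ) / 25 = n / 60 + 7 * n / 300 := by ring
    rw [e2, Real.exp_add]
    have a1 : 2 ≤ Real.exp (7 * n / 300) := by
      have := Real.add_one_le_exp (7 * (n : ℝ) / 300)
      linarith
    have a2 : 1 ≤ Real.exp ((n : ℝ) / 60) := Real.one_le_exp (by positivity)
    nlinarith
  have hlog1 : (n : ℝ) ≤ 60 * Real.log t := by
    have := (Real.le_log_iff_exp_le ht0).2 hlow
    linarith
  have hlog2 : Real.log t ≤ (κ + 1) * n := by
    have a1 : t ≤ Real.exp (κ * n + 1) := by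
      refine ht2.trans ?_
      rw [Real.exp_add]
      have a2 : 1 ≤ Real.exp (κ * n) := Real.one_le_exp (by positivity)
      have a3 : 2 ≤ Real.exp 1 := by
        have := Real.add_one_le_exp (1 : ℝ)
        linarith
      nlinarith
    have := (Real.log_le_iff_le_exp ht0).2 a1
    linarith
  refine (hU t n hT hlog1 S fun s hs => ⟨(hS s hs).1, (hS s hs).2.1⟩).trans ?_
  calc C * Real.log t ≤ C * ((κ + 1) * n) := by gcongr
    _ = _ := by ring

/-- the count in the upper half plane -/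
theorem cnt_up (y κ : ℝ) (hy : 0 ≤ y) (hy1 : y < 1 / 2) (hκ : κ * y < 2) (hk0 : 0 < κ) :
    ∃ (C : ℝ) (N : ℕ), 0 < C ∧ ∀ n : ℕ, N ≤ n → ∀ B : ℝ,
    (∀ Z : Finset ℂ, (∀ ρ ∈ Z, FF ρ = 0 ∧ 1 / 2 + y ≤ ρ.re ∧ |ρ.im| ≤ 2 * Real.exp (κ * n)) →
      (Z.card : ℝ) ≤ B) → ∀ S : Finset ℂ,
    (∀ s ∈ S, bad n s ∧ 0 ≤ s.im ∧ s.im ≤ Real.exp (κ * n)) →
    ∑ s ∈ S, (analyticOrderNatAt (iteratedDeriv n XX) s : ℝ) ≤ C * n ^ 2 * B := by
  obtain ⟨N1, hN1⟩ := near_zero y κ hy hy1 hκ hk0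
  obtain ⟨C, N2, hC, hU⟩ := unitw κ hk0.le
  have e1 : ∀ᶠ n : ℕ in atTop, (n : ℝ) ≤ Real.exp (κ * n) := by
    have h1 : Tendsto (fun n : ℕ => Real.exp (κ * n) / (κ * n) ^ 1) atTop atTop :=
      (Real.tendsto_exp_div_pow_atTop 1).comp (tendsto_natCast_atTop_atTop.const_mul_atTop hk0)
    filter_upwards [h1.eventually_ge_atTop (1 / κ), eventually_ge_atTop 1] with n hn hn1
    have hn0 : (0 : ℝ) < n := by exact_mod_cast hn1
    rw [pow_one, le_div_iff₀ (by positivity)] at hn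
    have : 1 / κ * (κ * n) = n := by field_simp
    linarith
  obtain ⟨N3, hN3⟩ := eventually_atTop.1 (e1.and (eventually_ge_atTop 1))
  refine ⟨3 * C, max N1 (max N2 N3), by positivity, fun n hn B hB S hS => ?_⟩
  have hn1 : N1 ≤ n := (le_max_left _ _).trans hn
  have hn2 : N2 ≤ n := ((le_max_left _ _).trans (le_max_right _ _)).trans hn
  obtain ⟨g1, g3⟩ := hN3 n (((le_max_right _ _).trans (le_max_right _ _)).trans hn)
  set E : ℝ := Real.exp (κ * n) with hE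
  have hn0 : (1 : ℝ) ≤ n := by exact_mod_cast g3
  have hE1 : 1 ≤ E := by rw [hE]; exact Real.one_le_exp (by positivity)
  classical
  set Z : Finset ℂ := ZF (1 / 2 + y) (E + n - 3) with hZ
  have hmem : ∀ ρ : ℂ, ρ ∈ Z ↔ FF ρ = 0 ∧ 1 / 2 + y ≤ ρ.re ∧ |ρ.im| ≤ E + n := by
    intro ρ
    rw [hZ, mem_ZF]
    have : E + n - 3 + 3 = E + n := by ring
    rw [this]
  have hcard : (Z.card : ℝ) ≤ B := by
    refine hB Z fun ρ hρ => ?_
    obtain ⟨h1, h2, h3⟩ := (hmem ρ).1 hρ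
    exact ⟨h1, h2, by linarith⟩
  -- each zero of zeta
  have hone : ∀ ρ ∈ Z, ∑ s ∈ S.filter (fun s => |ρ.im - s.im| ≤ n),
      (analyticOrderNatAt (iteratedDeriv n XX) s : ℝ) ≤ (2 * n + 1) * (C * n) := by
    intro ρ _
    have h1 := cover (S.filter (fun s => |ρ.im - s.im| ≤ n)) (Finset.range (2 * n + 1))
      (fun j s => |s.im - (ρ.im - n + j)| ≤ 1)
      (fun s => (analyticOrderNatAt (iteratedDeriv n XX) s : ℝ)) (C * n) (fun _ => Nat.cast_nonneg _)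
      (fun s hs => by
        rw [Finset.mem_filter] at hs
        have h2 := abs_le.1 hs.2
        have h3 : 0 ≤ s.im - (ρ.im - n) := by linarith
        refine ⟨⌊s.im - (ρ.im - n)⌋₊, ?_, ?_⟩
        · rw [Finset.mem_range, Nat.floor_lt h3]
          push_cast
          linarith
        · have h4 := Nat.floor_le h3
          have h5 := Nat.lt_floor_add_one (s.im - (ρ.im - n))
          rw [abs_le]
          constructor <;> linarith)
      (fun j _ => by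
        apply hU n hn2 (ρ.im - n + j)
        intro s hs
        rw [Finset.mem_filter, Finset.mem_filter] at hs
        obtain ⟨⟨h2, -⟩, h3⟩ := hs
        obtain ⟨b1, b2, b3⟩ := hS s h2
        exact ⟨h3, b1.1, (hN1 n hn1 s b2 b3 b1).1, b3⟩)
    rw [Finset.card_range] at h1
    push_cast at h1
    exact h1
  have hall := cover S Z (fun ρ s => |ρ.im - s.im| ≤ n)
    (fun s => (analyticOrderNatAt (iteratedDeriv n XX) s : ℝ)) ((2 * n + 1) * (C * n))
    (fun _ => Nat.cast_nonneg _) (fun s hs => by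
      obtain ⟨b1, b2, b3⟩ := hS s hs
      obtain ⟨-, ρ, h1, h2, h3⟩ := hN1 n hn1 s b2 b3 b1
      refine ⟨ρ, (hmem ρ).2 ⟨h1, h2, ?_⟩, h3⟩
      have h4 := abs_le.1 h3
      rw [abs_le]
      constructor <;> linarith) hone
  refine hall.trans ?_
  have hB0 : 0 ≤ B := (Nat.cast_nonneg _).trans hcard
  have h3 : (2 * n + 1 : ℝ) * (C * n) ≤ 3 * C * n ^ 2 := by
    nlinarith [mul_pos hC (by linarith : (0 : ℝ) < n)]
  calc (Z.card : ℝ) * ((2 * n + 1) * (C * n)) ≤ B * (3 * C * n ^ 2) := by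
        have : 0 ≤ (2 * n + 1 : ℝ) * (C * n) := by positivity
        gcongr
    _ = _ := by ring

end Pool.Agent.U762.DX
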