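import Pool.Agent.U762.DX.Ncv
import Pool.Agent.H986R2.K4.Xi

set_option autoImplicit false

/-! # Symmetry, multiplicities, growth comparisons -/

namespace Pool.Agent.U762.DX

open Complex Filter Topology MeasureTheory Set
open Pool.Agent.H24R2.JP (XX HH Om)
open Pool.Agent.H24R2.DZ (bad hc)
open Pool.Agent.W190 (ZF mem_ZF)
open Pool.Agent.W125.SD (iter_diff order_const_mul)
open H353 (FF mu mu_pos)

/-- order under an affine change of variable and a constant factor -/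
theorem ord_aff {f g : ℂ → ℂ} (hf : Differentiable ℂ f) {c a b : ℂ} (hc : c ≠ 0) (ha : a ≠ 0)
    (h : ∀ z, g z = c * f (a * z + b)) (s : ℂ) :
    analyticOrderNatAt g s = analyticOrderNatAt f (a * s + b) := by
  have hg : g = fun z => c * (f ∘ fun z => a * z + b) z := funext h
  have hk : Differentiable ℂ (fun z : ℂ => a * z + b) := by fun_prop
  rw [hg, order_const_mul hc s ((hf.comp hk).analyticAt s)]
  unfold analyticOrderNatAt
  rw [analyticOrderAt_comp_of_deriv_ne_zero (hk.analyticAt s)]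
  have h1 : HasDerivAt (fun z : ℂ => a * z + b) a s := by
    simpa using ((hasDerivAt_id s).const_mul a).add_const b
  rw [h1.deriv]
  exact ha

theorem XX_neg (z : ℂ) : XX (-z) = XX z := by
  obtain ⟨-, h1, -, -⟩ := Pool.Agent.H24R2.JP.b1
  rw [← h1, ← h1, neg_sq]

theorem iter_neg (n : ℕ) (z : ℂ) : iteratedDeriv n XX z = (-1) ^ n * iteratedDeriv n XX (-z) := by
  have h := iteratedDeriv_comp_neg n XX z
  have e : (fun x : ℂ => XX (-x)) = XX := funext XX_neg
  rw [e] at h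
  rw [h, smul_eq_mul]

theorem ord_neg (n : ℕ) (s : ℂ) : analyticOrderNatAt (iteratedDeriv n XX) s =
    analyticOrderNatAt (iteratedDeriv n XX) (-s) := by
  have h := ord_aff (f := iteratedDeriv n XX) (g := iteratedDeriv n XX) (iter_diff n) (c := (-1) ^ n)
    (a := -1) (b := 0) (by simp) (by simp) (fun z => by
      rw [neg_one_mul, add_zero]
      exact iter_neg n z) s
  rwa [neg_one_mul, add_zero] at h

theorem bad_neg (n : ℕ) (s : ℂ) (h : bad n s) : bad n (-s) := by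
  obtain ⟨h1, h2⟩ := h
  have h3 : ∀ m : ℕ, iteratedDeriv m XX s = 0 → iteratedDeriv m XX (-s) = 0 := by
    intro m hm
    rw [iter_neg, neg_neg, hm, mul_zero]
  refine ⟨h3 n h1, ?_⟩
  rcases h2 with h2 | h2
  · left
    rwa [Complex.neg_re, neg_ne_zero]
  · right
    exact h3 _ h2

/-- the derivative of `XX` is not locally zero -/
theorem ord_pos (n : ℕ) (s : ℂ) (h : iteratedDeriv n XX s = 0) :
    1 ≤ analyticOrderNatAt (iteratedDeriv n XX) s := by
  have han : AnalyticOnNhd ℂ (iteratedDeriv n XX) univ := fun z _ => (iter_diff n).analyticAt z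
  have htop : analyticOrderAt (iteratedDeriv n XX) s ≠ ⊤ := by
    intro ht
    have h1 := han.eqOn_zero_of_preconnected_of_eventuallyEq_zero isPreconnected_univ (mem_univ s)
      (analyticOrderAt_eq_top.1 ht)
    have h2 := Pool.Agent.H24R2.DZ.strip n 1 (h1 (mem_univ 1))
    rw [one_re, abs_one] at h2
    linarith
  rw [Nat.one_le_iff_ne_zero]
  intro h0
  unfold analyticOrderNatAt at h0
  rcases ENat.toNat_eq_zero.1 h0 with h1 | h1
  · exact (((iter_diff n).analyticAt s).analyticOrderAt_eq_zero.1 h1) h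
  · exact htop h1

/-- the count in both half planes -/
theorem cnt_all (y κ : ℝ) (hy : 0 ≤ y) (hy1 : y < 1 / 2) (hκ : κ * y < 2) (hk0 : 0 < κ) :
    ∃ (C : ℝ) (N : ℕ), 0 < C ∧ ∀ n : ℕ, N ≤ n → ∀ B : ℝ,
    (∀ Z : Finset ℂ, (∀ ρ ∈ Z, FF ρ = 0 ∧ 1 / 2 + y ≤ ρ.re ∧ |ρ.im| ≤ 2 * Real.exp (κ * n)) →
      (Z.card : ℝ) ≤ B) → ∀ S : Finset ℂ,
    (∀ s ∈ S, bad n s ∧ |s.im| ≤ Real.exp (κ * n)) →
    ∑ s ∈ S, (analyticOrderNatAt (iteratedDeriv n XX) s : ℝ) ≤ C * n ^ 2 * B := by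
  classical
  obtain ⟨C, N, hC, h⟩ := cnt_up y κ hy hy1 hκ hk0
  refine ⟨2 * C, N, by positivity, fun n hn B hB S hS => ?_⟩
  rw [← Finset.sum_filter_add_sum_filter_not S (fun s => 0 ≤ s.im)]
  have h1 := h n hn B hB (S.filter (fun s => 0 ≤ s.im)) (fun s hs => by
    rw [Finset.mem_filter] at hs
    obtain ⟨a1, a2⟩ := hS s hs.1
    rw [abs_of_nonneg hs.2] at a2
    exact ⟨a1, hs.2, a2⟩)
  have h2 := h n hn B hB ((S.filter (fun s => ¬ 0 ≤ s.im)).image (fun s => -s)) (fun s hs => by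
    rw [Finset.mem_image] at hs
    obtain ⟨v, hv, rfl⟩ := hs
    rw [Finset.mem_filter, not_le] at hv
    obtain ⟨a1, a2⟩ := hS v hv.1
    rw [abs_of_neg hv.2] at a2
    exact ⟨bad_neg n v a1, by rw [Complex.neg_im]; linarith, by rw [Complex.neg_im]; exact a2⟩)
  rw [Finset.sum_image (fun a _ b _ hab => neg_injective hab)] at h2
  have h3 : ∑ s ∈ S.filter (fun s => ¬ 0 ≤ s.im), (analyticOrderNatAt (iteratedDeriv n XX) s : ℝ) =
      ∑ s ∈ S.filter (fun s => ¬ 0 ≤ s.im), (analyticOrderNatAt (iteratedDeriv n XX) (-s) : ℝ) :=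
    Finset.sum_congr rfl fun s _ => by rw [ord_neg]
  rw [h3]
  linarith

/-- multiplicities of the zeros of zeta -/
theorem mu_zeta {ρ : ℂ} (h : ρ ≠ 1) : mu ρ = analyticOrderNatAt riemannZeta ρ := by
  unfold mu analyticOrderNatAt
  congr 1
  have hz : AnalyticAt ℂ riemannZeta ρ := by
    have hd : DifferentiableOn ℂ riemannZeta {1}ᶜ := fun z hz =>
      (differentiableAt_riemannZeta hz).differentiableWithinAt
    exact hd.analyticAt (isOpen_compl_singleton.mem_nhds h)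
  have hl : AnalyticAt ℂ (fun s : ℂ => s - 1) ρ := by fun_prop
  have h1 := analyticOrderAt_mul hl hz
  have h2 : analyticOrderAt (fun s : ℂ => s - 1) ρ = 0 :=
    hl.analyticOrderAt_eq_zero.2 (sub_ne_zero.2 h)
  rw [h2, zero_add] at h1
  rw [← h1]
  apply analyticOrderAt_congr
  filter_upwards [isOpen_compl_singleton.mem_nhds h] with z hz
  exact ZU.J_g2b.FF_ne hz

theorem zero_ne_one {ρ : ℂ} (h : riemannZeta ρ = 0) : ρ ≠ 1 := by
  rintro rfl
  exact riemannZeta_one_ne_zero h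

theorem FF_zero {ρ : ℂ} (h : riemannZeta ρ = 0) : FF ρ = 0 := by
  have h5 : FF ρ = (ρ - 1) * riemannZeta ρ := ZU.J_g2b.FF_ne (zero_ne_one h)
  rw [h5, h, mul_zero]

theorem zeta_of_FF {ρ : ℂ} (h : FF ρ = 0) : riemannZeta ρ = 0 := by
  have hne : ρ ≠ 1 := by
    rintro rfl
    have h1 : FF 1 = 1 := ZU.J_g2b.FF_one
    rw [h1] at h
    exact one_ne_zero h
  have h5 : FF ρ = (ρ - 1) * riemannZeta ρ := ZU.J_g2b.FF_ne hne
  rw [h5] at h
  exact (mul_eq_zero.1 h).resolve_left (sub_ne_zero.2 hne)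

/-- both half planes for zeta -/
theorem zet_all {σ T B : ℝ} (hσ : 1 / 2 ≤ σ) (h : ∀ S : Finset ℂ,
    (∀ ρ ∈ S, FF ρ = 0 ∧ σ < ρ.re ∧ 0 < ρ.im ∧ ρ.im ≤ T) → ∑ ρ ∈ S, (mu ρ : ℝ) ≤ B) (S : Finset ℂ)
    (hS : ∀ s ∈ S, riemannZeta s = 0 ∧ σ < s.re ∧ |s.im| ≤ T) :
    ∑ s ∈ S, (analyticOrderNatAt riemannZeta s : ℝ) ≤ 2 * B := by
  classical
  have him : ∀ s ∈ S, s.im ≠ 0 := fun s hs =>
    H353.FF_im_ne s (FF_zero (hS s hs).1) (by linarith [(hS s hs).2.1])
  have h0 : ∑ s ∈ S, (analyticOrderNatAt riemannZeta s : ℝ) = ∑ s ∈ S, (mu s : ℝ) :=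
    Finset.sum_congr rfl fun s hs => by rw [mu_zeta (zero_ne_one (hS s hs).1)]
  rw [h0, ← Finset.sum_filter_add_sum_filter_not S (fun s => 0 < s.im)]
  have h1 := h (S.filter (fun s => 0 < s.im)) (fun s hs => by
    rw [Finset.mem_filter] at hs
    obtain ⟨a1, a2, a3⟩ := hS s hs.1
    rw [abs_of_pos hs.2] at a3
    exact ⟨FF_zero a1, a2, hs.2, a3⟩)
  have h2 := h ((S.filter (fun s => ¬ 0 < s.im)).image (starRingEnd ℂ)) (fun s hs => by
    rw [Finset.mem_image] at hs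
    obtain ⟨v, hv, rfl⟩ := hs
    rw [Finset.mem_filter, not_lt] at hv
    obtain ⟨a1, a2, a3⟩ := hS v hv.1
    have hv0 : v.im < 0 := lt_of_le_of_ne hv.2 (him v hv.1)
    rw [abs_of_neg hv0] at a3
    refine ⟨by rw [H353.FF_conj, FF_zero a1, map_zero], by rw [Complex.conj_re]; exact a2, ?_, ?_⟩
    · rw [Complex.conj_im]; linarith
    · rw [Complex.conj_im]; exact a3)
  rw [Finset.sum_image (fun a _ b _ hab => (starRingEnd ℂ).injective hab)] at h2
  simp only [H353.mu_conj] at h2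
  linarith

/-- powers against exponentials -/
theorem beat (C a b : ℝ) (k : ℕ) (h : a < b) : ∀ᶠ n : ℕ in atTop,
    C * (n : ℝ) ^ k * Real.exp (a * n) ≤ Real.exp (b * n) := by
  have hab : 0 < b - a := by linarith
  have h1 : Tendsto (fun n : ℕ => Real.exp ((b - a) * n) / ((b - a) * n) ^ k) atTop atTop :=
    (Real.tendsto_exp_div_pow_atTop k).comp (tendsto_natCast_atTop_atTop.const_mul_atTop hab)
  filter_upwards [h1.eventually_ge_atTop (|C| / (b - a) ^ k), eventually_ge_atTop 1] with n hn hn1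
  have hn0 : (1 : ℝ) ≤ n := by exact_mod_cast hn1
  rw [div_le_div_iff₀ (by positivity) (by positivity), mul_pow] at hn
  have h3 : |C| * (n : ℝ) ^ k ≤ Real.exp ((b - a) * n) := by
    have : |C| * (n : ℝ) ^ k * (b - a) ^ k ≤ Real.exp ((b - a) * n) * (b - a) ^ k := by
      calc |C| * (n : ℝ) ^ k * (b - a) ^ k = |C| * ((b - a) ^ k * n ^ k) := by ring
        _ ≤ _ := hn
    exact le_of_mul_le_mul_right this (by positivity)
  have h4 : C * (n : ℝ) ^ k ≤ |C| * (n : ℝ) ^ k := by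
    gcongr
    exact le_abs_self C
  calc C * (n : ℝ) ^ k * Real.exp (a * n) ≤ Real.exp ((b - a) * n) * Real.exp (a * n) := by
        gcongr
        linarith
    _ = Real.exp (b * n) := by rw [← Real.exp_add]; congr 1; ring

end Pool.Agent.U762.DX
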