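import Pool.Agent.H986R2.K4.All

set_option autoImplicit false

/-! # A zero of zeta near the edge produces off-line zeros of the derivatives at the same height -/

namespace Pool.Agent.U762.DX

open Complex Filter Topology MeasureTheory Set
open Pool.Agent.H24R2.JP (XX HH Om)
open Pool.Agent.H986R2.K4
open Pool.Agent.H986R2.K4.ConvAux

/-- the local converse -/
theorem lconv (κ : ℝ) (hκ : 4 < κ) : ∃ σ κ1 κ2 T1 : ℝ, 1 / 2 ≤ σ ∧ σ < 1 ∧ 4 < κ1 ∧ κ1 < κ2 ∧ κ2 < κ ∧ 2 ≤ T1 ∧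
    ∀ (s : ℂ) (n : ℕ), riemannZeta s = 0 → σ < s.re → T1 ≤ s.im → Real.exp (κ1 * n) ≤ s.im →
      s.im ≤ Real.exp (κ2 * n) → ∃ w : ℂ, iteratedDeriv n XX w = 0 ∧ |w.im - s.im| ≤ 20 ∧ w.re ≠ 0 := by
  have hV := vdcQ
  have hP := pl hh
  have hL := lr
  have hG := grT
  have hH := hh
  have hT := tay
  set κ0 : ℝ := min κ 5 with hκ0
  have hκ04 : 4 < κ0 := lt_min hκ (by norm_num)
  have hκ05 : κ0 ≤ 5 := min_le_right _ _
  have hκ0κ : κ0 ≤ κ := min_le_left _ _
  set a : ℝ := 2 / κ0 with ha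
  have haκ : a * κ0 = 2 := by rw [ha]; field_simp
  have ha1 : 2 / 5 ≤ a := by
    rw [ha]; gcongr
  have ha2 : a < 1 / 2 := by
    rw [ha, div_lt_iff₀ (by linarith)]; linarith
  set r' : ℝ := (a + 1 / 2) / 2 with hr'
  set r1 : ℝ := (r' + 1 / 2) / 2 with hr1
  set g0 : ℝ := 1 / 2 - r1 with hg0
  have hr'1 : 2 / 5 ≤ r' := by rw [hr']; linarith
  have har' : a < r' := by rw [hr']; linarith
  have hr'r1 : r' < r1 := by rw [hr1]; linarith
  have hr1h : r1 < 1 / 2 := by rw [hr1]; linarith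
  have hg0p : 0 < g0 := by rw [hg0]; linarith
  have hg01 : g0 ≤ 1 / 10 := by rw [hg0]; linarith
  obtain ⟨e0, he0, he01, hV⟩ := hV (g0 / 4) (by linarith)
  set ε2 : ℝ := min (g0 / 8) e0 with hε2
  have hε2p : 0 < ε2 := lt_min (by linarith) he0
  have hε2g : ε2 ≤ g0 / 8 := min_le_left _ _
  obtain ⟨C, hC, hV⟩ := hV ε2 hε2p (min_le_right _ _)
  set ν : ℝ := g0 / 4 * ε2 with hν
  have hν0 : 0 < ν := by positivity
  have hν1 : ν ≤ 1 := by rw [hν]; nlinarith
  obtain ⟨C', T3, hC', hT3, hPL⟩ := hP (1 / 2 - ε2) ν C 2 1 (by linarith) (by linarith) hν0.le hν1 hC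
    (by norm_num) le_rfl (by
      intro t ht
      have := hV t ht
      have e : (1 / 2 : ℂ) + ((1 / 2 - ε2 : ℝ) : ℂ) + t * I = 1 - ε2 + t * I := by
        push_cast; ring
      rw [e]; exact this)
  set ε : ℝ := ε2 * g0 / 16 with hε
  have hεp : 0 < ε := by positivity
  obtain ⟨K, T4, hT4, hlow⟩ := low hL hG hH r' r1 (by linarith) hr'r1.le hr1h (g0 / 16) ε
    (by linarith) (by rw [hg0]) hεp
  obtain ⟨K5, hK5, hHH⟩ := hH
  obtain ⟨T5, hT5, hHH⟩ := hHH 1 le_rfl
  obtain ⟨L0, hL01, hL0⟩ := grow (ε2 * g0 / 4) (Real.exp K * C') (by positivity)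
  have hr'0 : 0 < r' := by linarith
  have hr10 : 0 < r1 := by linarith
  refine ⟨1 - min ε (g0 / 8), 2 / r1, 2 / r', max (max T3 T4) (max T5 (Real.exp (2 * (L0 + 1)))),
    ?_, ?_, ?_, ?_, ?_, ?_, ?_⟩
  · have := min_le_right ε (g0 / 8)
    linarith
  · have : 0 < min ε (g0 / 8) := lt_min hεp (by linarith)
    linarith
  · rw [lt_div_iff₀ hr10]; linarith
  · exact div_lt_div_of_pos_left (by norm_num) hr'0 hr'r1
  · have h1 : 2 / r' < κ0 := by
      rw [div_lt_iff₀ hr'0]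
      have h1 : a * κ0 < r' * κ0 := by gcongr
      linarith
    linarith
  · exact hT4.trans ((le_max_right _ _).trans (le_max_left _ _))
  intro s n hs0 hs1 hs3 hsn1 hsn2
  have hs2 : s.re < 1 := by
    by_contra hcon
    exact riemannZeta_ne_zero_of_one_le_re (not_lt.1 hcon) hs0
  by_contra hcon
  push Not at hcon
  set T : ℝ := s.im with hTdef
  have hTT3 : T3 ≤ T := le_trans (le_trans (le_max_left _ _) (le_max_left _ _)) hs3
  have hTT4 : T4 ≤ T := le_trans (le_trans (le_max_right _ _) (le_max_left _ _)) hs3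
  have hTT5 : T5 ≤ T := le_trans (le_trans (le_max_left _ _) (le_max_right _ _)) hs3
  have hTT6 : Real.exp (2 * (L0 + 1)) ≤ T := le_trans (le_trans (le_max_right _ _) (le_max_right _ _)) hs3
  have hTp : 0 < T := by linarith
  set L : ℝ := Om T with hLdef
  have hLlog : Real.log T = 2 * L := by rw [hLdef]; unfold Om; ring
  have hLbig : L0 + 1 ≤ L := by
    have : 2 * (L0 + 1) ≤ Real.log T := by
      rwa [Real.le_log_iff_exp_le hTp]
    linarith
  have hLL0 : L0 ≤ L := by linarith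
  have hLpos : 0 < L := by linarith
  have hTexp : T = Real.exp (2 * L) := by rw [← hLlog, Real.exp_log hTp]
  have hn1 : r' * L ≤ n := by
    rw [hTexp, Real.exp_le_exp, div_mul_eq_mul_div, le_div_iff₀ hr'0] at hsn2
    linarith
  have hn2 : (n : ℝ) ≤ r1 * L := by
    rw [hTexp, Real.exp_le_exp, div_mul_eq_mul_div, div_le_iff₀ hr10] at hsn1
    linarith
  have hzeros : ∀ s : ℂ, iteratedDeriv n XX s = 0 → |s.im - T| ≤ 20 → s.re = 0 := by
    intro w hw hwT
    exact hcon w hw hwT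
  set xp : ℝ := s.re - 1 / 2 with hxp
  have hxp1 : 1 / 2 - ε ≤ xp := by
    have := min_le_left ε (g0 / 8)
    rw [hxp]; linarith
  have hxp2 : 1 / 2 - g0 / 8 ≤ xp := by
    have := min_le_right ε (g0 / 8)
    rw [hxp]; linarith
  have hxp3 : xp < 1 / 2 := by rw [hxp]; linarith
  have hlow := hlow T n xp hTT4 hn1 hn2 hzeros hxp2 hxp3
  set x : ℝ := xp - 2 * (g0 / 16) with hx
  set ρ : ℝ := x - ε2 with hρ
  have hρ0 : r1 + 5 / 8 * g0 ≤ ρ := by rw [hρ, hx]; linarith
  have hρp : 0 < ρ := by linarith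
  have hρh : ρ ≤ 1 / 2 := by rw [hρ, hx]; linarith
  set M : ℝ := C' * T ^ ν * (Real.exp ((1 / 2 - ε2) * L) * ‖HH (I * T)‖) with hM
  have hpXX : XX (I * T + (xp : ℂ)) = 0 := by
    rw [Pool.Agent.H24R2.JP.zetaS.1 _ (by simpa using hTp)]
    have : (1 / 2 : ℂ) + (I * T + (xp : ℂ)) = s := by
      apply Complex.ext
      · simp [hxp]
      · simp [hTdef]
    rw [this, hs0, mul_zero]
  have hn1' : 1 ≤ n := by
    have : (0 : ℝ) < n := lt_of_lt_of_le (by positivity) hn1
    exact_mod_cast this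
  have htay := hT XX (I * T + (xp : ℂ)) x ρ M n Pool.Agent.H24R2.JP.B1h.XX_diff hn1' hρp
    (by rw [hρ]; linarith) (by
      intro w hw
      have e0 : (I * T + (xp : ℂ)) - (x : ℂ) = I * T + ((xp - x : ℝ) : ℂ) := by push_cast; ring
      rw [e0] at hw
      obtain ⟨b1, b2⟩ := ballRe hw
      have b1' := abs_le.1 b1
      have e1 : w = I * T + (w - I * T) := by ring
      rw [e1]
      refine hPL T (w - I * T) hTT3 ?_ (b2.trans (by linarith))
      rw [abs_le]
      constructor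
      · linarith
      · linarith)
  rw [hpXX, zero_sub, norm_neg] at htay
  have hfin := hlow.trans htay
  -- numerics
  obtain ⟨-, hHne, -⟩ := hHH T 0 hTT5 (by simp)
  rw [add_zero] at hHne
  have hHp : 0 < ‖HH (I * T)‖ := norm_pos_iff.2 hHne
  have hTpow : ∀ b : ℝ, T ^ b = Real.exp (2 * b * L) := by
    intro b
    rw [Real.rpow_def_of_pos hTp, hLlog]; congr 1; ring
  have hxρ : (x / ρ) ^ n ≤ Real.exp (ε2 * (1 - g0) * L) := by
    have h1 : x / ρ ≤ Real.exp (ε2 / ρ) := by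
      have : x / ρ = ε2 / ρ + 1 := by
        rw [hρ] at hρp ⊢
        field_simp
        ring
      rw [this]
      exact Real.add_one_le_exp _
    have h2 : (x / ρ) ^ n ≤ Real.exp (ε2 / ρ) ^ n := by
      have : 0 ≤ x / ρ := by
        have : 0 ≤ x := by linarith
        positivity
      gcongr
    refine h2.trans ?_
    rw [← Real.exp_nat_mul]
    apply Real.exp_le_exp.2
    have h3 : (n : ℝ) * (ε2 / ρ) ≤ r1 * L * (ε2 / ρ) := by gcongr
    have h4 : r1 / ρ ≤ 1 - g0 := by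
      rw [div_le_iff₀ hρp]
      have : g0 * ρ ≤ g0 * (1 / 2) := by gcongr
      linarith
    have h5 : r1 * L * (ε2 / ρ) = ε2 * (r1 / ρ) * L := by ring
    rw [h5] at h3
    refine h3.trans ?_
    gcongr
  have hup : (n : ℝ) * (x / ρ) ^ n * M ≤
      L * C' * Real.exp (L / 2 - ε2 * g0 / 2 * L) * ‖HH (I * T)‖ := by
    have hMp : 0 ≤ M := by rw [hM]; positivity
    have hnL : (n : ℝ) ≤ L := by
      have : r1 * L ≤ 1 * L := by gcongr; linarith
      linarith
    have hx0 : 0 ≤ (x / ρ) ^ n := by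
      have : 0 ≤ x := by linarith
      positivity
    calc (n : ℝ) * (x / ρ) ^ n * M ≤ L * Real.exp (ε2 * (1 - g0) * L) * M := by gcongr
      _ = L * C' * (Real.exp (ε2 * (1 - g0) * L) * Real.exp (2 * ν * L) *
            Real.exp ((1 / 2 - ε2) * L)) * ‖HH (I * T)‖ := by
          rw [hM, hTpow]; ring
      _ = _ := by
          have e1 : Real.exp (ε2 * (1 - g0) * L) * Real.exp (2 * ν * L) *
              Real.exp ((1 / 2 - ε2) * L) = Real.exp (L / 2 - ε2 * g0 / 2 * L) := by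
            rw [← Real.exp_add, ← Real.exp_add, hν]
            congr 1
            ring
          rw [e1]
  have hlo : Real.exp (L / 2 - ε2 * g0 / 4 * L - K) * ‖HH (I * T)‖ ≤
      Real.exp (-(ε * n)) * T ^ (-ε) * (Real.exp (L * xp - K) * ‖HH (I * T)‖) := by
    rw [hTpow]
    have : Real.exp (L / 2 - ε2 * g0 / 4 * L - K) ≤
        Real.exp (-(ε * n)) * Real.exp (2 * -ε * L) * Real.exp (L * xp - K) := by
      rw [← Real.exp_add, ← Real.exp_add]
      apply Real.exp_le_exp.2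
      have h1 : ε * n ≤ ε * L := by
        have h0 : r1 * L ≤ 1 * L := by gcongr; linarith
        have : (n : ℝ) ≤ L := by linarith
        gcongr
      have h2 : L * (1 / 2 - ε) ≤ L * xp := by gcongr
      have h3 : ε2 * g0 / 4 * L = 4 * (ε * L) := by rw [hε]; ring
      rw [h3]
      linarith
    calc _ ≤ (Real.exp (-(ε * n)) * Real.exp (2 * -ε * L) * Real.exp (L * xp - K)) * ‖HH (I * T)‖ := by
          gcongr
      _ = _ := by ring
  have hall := hlo.trans (hfin.trans hup)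
  have hall2 : Real.exp (L / 2 - ε2 * g0 / 4 * L - K) ≤ L * C' * Real.exp (L / 2 - ε2 * g0 / 2 * L) :=
    le_of_mul_le_mul_right hall hHp
  have h6 := hL0 L hLL0
  have h7 : Real.exp (L / 2 - ε2 * g0 / 4 * L - K) =
      Real.exp (ε2 * g0 / 4 * L) * Real.exp (-K) * Real.exp (L / 2 - ε2 * g0 / 2 * L) := by
    rw [← Real.exp_add, ← Real.exp_add]; congr 1; ring
  rw [h7] at hall2
  have h8 : Real.exp (ε2 * g0 / 4 * L) * Real.exp (-K) ≤ L * C' :=
    le_of_mul_le_mul_right hall2 (Real.exp_pos _)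
  have h9 : Real.exp (ε2 * g0 / 4 * L) ≤ Real.exp K * (L * C') := by
    have : Real.exp K * (Real.exp (ε2 * g0 / 4 * L) * Real.exp (-K)) = Real.exp (ε2 * g0 / 4 * L) := by
      rw [mul_comm (Real.exp (ε2 * g0 / 4 * L)), ← mul_assoc, ← Real.exp_add]
      simp
    rw [← this]
    gcongr
  linarith

end Pool.Agent.U762.DX
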