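import Pool.Agent.W613.SDNear
import Pool.Agent.W327.SD.Top
import Pool.Agent.H986R2.K4.Win
import Pool.Agent.H986R2.K4.Norm
import Pool.Agent.H986R2.K4.AW
import Pool.Agent.H986R2.K4.NL
import Pool.Agent.H986R2.K4.RT
import Pool.Agent.H986R2.K4.Lap
import Pool.Agent.H986R2.K4.HHb

set_option autoImplicit false

/-! # Derivatives of xi at a height without zeros of zeta far from the critical line -/

namespace Pool.Agent.U762.DX

open Complex Filter Topology MeasureTheory Set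
open Pool.Agent.H24R2.JP (XX HH Om)
open Pool.Agent.H24R2.DZ (bad hc)
open Pool.Agent.H986R2.K4 (QQ)
open Pool.Agent.W186.SD (FarOK)
open W327.SD (zloc ld_XX)
open H353 (FF mu)

/-- no zeros nearby implies `FarOK` -/
theorem far2 (R x0 η y : ℝ) (hR : 1 ≤ R) (hy : 0 ≤ y) (hy1 : y < 1 / 2) (hyx : y < x0)
    (hη : 0 < η) : ∃ T0 : ℝ, 2 ≤ T0 ∧ ∀ t : ℝ, T0 ≤ t →
      (∀ ρ : ℂ, FF ρ = 0 → 1 / 2 + y ≤ ρ.re → R + 20 < |ρ.im - t|) → FarOK R x0 η t := by
  have he : 0 < x0 - y := by linarith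
  obtain ⟨t1, ht1, hz⟩ := zloc y (min (x0 - y) (η / 8)) hy hy1 (lt_min he (by linarith))
  obtain ⟨K, hK1, hK⟩ := Pool.Agent.H986R2.K4.hh
  obtain ⟨t2, ht2, hH⟩ := hK R hR
  have hlim : Tendsto (fun t : ℝ => η / 4 * Real.log t) atTop atTop :=
    Real.tendsto_log_atTop.const_mul_atTop (by linarith)
  obtain ⟨t3, ht3⟩ := eventually_atTop.1 (hlim.eventually_ge_atTop K)
  refine ⟨max (max (t1 + R) t2) (max t3 (2 * R + 20)), ?_, ?_⟩
  · exact ht2.trans ((le_max_right _ _).trans (le_max_left _ _))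
  intro t ht hno z hz1 hz2
  have g1 : t1 + R ≤ t := ((le_max_left _ _).trans (le_max_left _ _)).trans ht
  have g2 : t2 ≤ t := ((le_max_right _ _).trans (le_max_left _ _)).trans ht
  have g3 : t3 ≤ t := ((le_max_left _ _).trans (le_max_right _ _)).trans ht
  have g4 : 2 * R + 20 ≤ t := ((le_max_right _ _).trans (le_max_right _ _)).trans ht
  have hzim : |z.im| ≤ R := (Complex.abs_im_le_norm z).trans hz2
  have hzim' := abs_le.1 hzim
  set s : ℂ := 1 / 2 + (I * t + z) with hs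
  have hsre : s.re = 1 / 2 + z.re := by simp [hs]
  have hsim : s.im = t + z.im := by simp [hs]
  have hmin1 : min (x0 - y) (η / 8) ≤ x0 - y := min_le_left _ _
  have hmin2 : min (x0 - y) (η / 8) ≤ η / 8 := min_le_right _ _
  obtain ⟨a1, a2⟩ := hz s (by rw [hsre]; linarith) (by rw [hsim]; linarith) (by
    intro w hw1 hw2 hw3
    rw [hsim] at hw2
    have hw4 := abs_le.1 hw2
    have hne : w ≠ 1 := by
      intro he
      have h5 := hw4.1
      rw [he, one_im] at h5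
      linarith
    have h6 : FF w = (w - 1) * riemannZeta w := ZU.J_g2b.FF_ne hne
    have h7 := hno w (by rw [h6, hw3, mul_zero]) hw1.le
    have h8 : |w.im - t| ≤ R + 10 := by
      rw [abs_le]
      constructor <;> linarith
    linarith)
  obtain ⟨b1, b2, b3, -, -⟩ := hH t z g2 hz2
  have him : 0 < (I * t + z : ℂ).im := by
    have : (I * t + z : ℂ).im = t + z.im := by simp
    rw [this]; linarith
  obtain ⟨c1, c2⟩ := ld_XX him b1 b2 a1
  refine ⟨c1, ?_⟩
  rw [c2]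
  have e1 : logDeriv HH (I * t + z) + logDeriv riemannZeta (1 / 2 + (I * t + z)) - (Om t : ℂ) =
      (logDeriv HH (I * t + z) - (Om t : ℂ)) + logDeriv riemannZeta (1 / 2 + (I * t + z)) := by ring
  rw [e1]
  have hlog : Real.log s.im ≤ 2 * Real.log t := by
    rw [hsim]
    have h9 : Real.log (t + z.im) ≤ Real.log (t * t) := by
      apply Real.log_le_log (by linarith)
      nlinarith
    rw [Real.log_mul (by linarith) (by linarith)] at h9
    linarith
  have hlog0 : 0 ≤ Real.log s.im := Real.log_nonneg (by rw [hsim]; linarith)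
  have h10 : min (x0 - y) (η / 8) * Real.log s.im ≤ η / 8 * (2 * Real.log t) := by
    calc min (x0 - y) (η / 8) * Real.log s.im ≤ η / 8 * Real.log s.im :=
          mul_le_mul_of_nonneg_right hmin2 hlog0
      _ ≤ _ := mul_le_mul_of_nonneg_left hlog (by linarith)
  have h11 := ht3 t g3
  have hOm : Om t = Real.log t / 2 := rfl
  calc _ ≤ ‖logDeriv HH (I * t + z) - (Om t : ℂ)‖ + ‖logDeriv riemannZeta (1 / 2 + (I * t + z))‖ :=
        norm_add_le _ _
    _ ≤ K + η / 8 * (2 * Real.log t) := add_le_add b3 (a2.trans h10)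
    _ ≤ η * Om t := by rw [hOm]; linarith

/-- the normalised local situation -/
theorem locq (x0 r0 κ R η : ℝ) (hx0 : 0 < x0) (hx : x0 ≤ 1 / 2)
    (hxr : x0 ≤ r0 * (1 - κ)) (hr1 : r0 ≤ 1) (hr0 : 0 < r0) (hκ : 0 < κ) (hκ1 : κ ≤ 1 / 2) (hR : 3 ≤ R)
    (hη : 0 < η) :
    ∃ R2 η2 T0 : ℝ, 1 ≤ R2 ∧ 0 < η2 ∧ 2 ≤ T0 ∧ ∀ (t : ℝ) (n : ℕ), T0 ≤ t → r0 * Om t ≤ n →
      (n : ℝ) ≤ 2 * r0 * Om t → FarOK R2 x0 η2 t →
      QQ κ R n η (fun z => XX (I * t + ((n / Om t : ℝ) : ℂ) * z)) := by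
  obtain ⟨ε, hε⟩ : ∃ ε : ℝ, ε = min x0 (κ * r0 / 8) := ⟨_, rfl⟩
  have hε0 : 0 < ε := by rw [hε]; exact lt_min hx0 (by positivity)
  have hε1 : ε ≤ x0 := by rw [hε]; exact min_le_left _ _
  have hε2 : ε ≤ κ * r0 / 8 := by rw [hε]; exact min_le_right _ _
  obtain ⟨Rn, ηn, Tn, hRn, hηn, hTn, hnear⟩ := Pool.Agent.W613.SDNear.near (2 * R) ε (by linarith) hε0
  obtain ⟨η2, hη2⟩ : ∃ η2 : ℝ, η2 = min ηn (min η (κ * r0 / (16 * (R + 1)))) := ⟨_, rfl⟩
  have hη20 : 0 < η2 := by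
    rw [hη2]
    exact lt_min hηn (lt_min hη (by positivity))
  have hη2n : η2 ≤ ηn := by rw [hη2]; exact min_le_left _ _
  have hη2η : η2 ≤ η := by rw [hη2]; exact (min_le_right _ _).trans (min_le_left _ _)
  have hη2κ : η2 * (16 * (R + 1)) ≤ κ * r0 := by
    have : η2 ≤ κ * r0 / (16 * (R + 1)) := by rw [hη2]; exact (min_le_right _ _).trans (min_le_right _ _)
    rwa [le_div_iff₀ (by linarith)] at this
  refine ⟨max Rn (2 * R), η2, max Tn 8, hRn.trans (le_max_left _ _), hη20, ?_, ?_⟩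
  · exact le_trans (by norm_num) (le_max_right _ _)
  intro t n ht hn1 hn2 hfar
  have htn : Tn ≤ t := (le_max_left _ _).trans ht
  have ht8 : 8 ≤ t := (le_max_right _ _).trans ht
  have hlog : 0 < Real.log t := Real.log_pos (by linarith)
  have hOm0 : 0 < Om t := by unfold Om; positivity
  obtain ⟨r, hr⟩ : ∃ r : ℝ, r = n / Om t := ⟨_, rfl⟩
  have hrO : r * Om t = n := by rw [hr]; exact div_mul_cancel₀ _ hOm0.ne'
  have hrr : r0 ≤ r := by rw [hr, le_div_iff₀ hOm0]; exact hn1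
  have hr2 : r ≤ 2 * r0 := by rw [hr, div_le_iff₀ hOm0]; exact hn2
  have hr0' : 0 < r := by linarith
  have hr22 : r ≤ 2 := by linarith
  have hn0 : (0 : ℝ) ≤ n := Nat.cast_nonneg n
  have hx0r : x0 ≤ r0 := by nlinarith
  rw [← hr]
  have hrw : ∀ z : ℂ, ‖z‖ ≤ R → ‖(r : ℂ) * z‖ ≤ 2 * R := by
    intro z hz
    rw [norm_mul, Complex.norm_real, Real.norm_eq_abs, abs_of_pos hr0']
    exact mul_le_mul hr22 hz (norm_nonneg _) (by norm_num)
  have hre : ∀ z : ℂ, ((r : ℂ) * z).re = r * z.re := fun z => by simp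
  have hF : ∀ w : ℂ, x0 ≤ w.re → ‖w‖ ≤ 2 * R → XX (I * t + w) ≠ 0 ∧
      ‖logDeriv XX (I * t + w) - (Om t : ℂ)‖ ≤ η2 * Om t := fun w h1 h2 =>
    hfar w h1 (h2.trans (le_max_right _ _))
  have hηO : ∀ c : ℝ, 0 ≤ c → c ≤ 2 * (R + 1) → η2 * Om t * c ≤ κ / 8 * n := by
    intro c hc0 hc
    calc η2 * Om t * c ≤ η2 * Om t * (2 * (R + 1)) := by gcongr
      _ = η2 * (16 * (R + 1)) / 8 * Om t := by ring
      _ ≤ κ * r0 / 8 * Om t := by gcongr
      _ = κ / 8 * (r0 * Om t) := by ring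
      _ ≤ κ / 8 * n := by gcongr
  -- comparison along segments starting at `r`
  have hseg : ∀ w : ℂ, x0 ≤ w.re → ‖w‖ ≤ 2 * R → ‖XX (I * t + w)‖ ≤
      ‖XX (I * t + r)‖ * Real.exp (Om t * (w.re - r) + κ / 8 * n) := by
    intro w hw1 hw2
    have hnr : ‖(r : ℂ)‖ = r := by
      rw [Complex.norm_real, Real.norm_eq_abs, abs_of_pos hr0']
    have h1 := Pool.Agent.W613.SDNear.seg (I * t + r) (I * t + w) (Om t) (η2 * Om t) (by
      intro x hx
      have e : I * t + r + (x : ℂ) * (I * t + w - (I * t + r)) =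
          I * t + (((1 - x : ℝ) : ℂ) * r + (x : ℂ) * w) := by
        push_cast
        ring
      rw [e]
      apply hF
      · have e2 : (((1 - x : ℝ) : ℂ) * r + (x : ℂ) * w).re = (1 - x) * r + x * w.re := by simp
        rw [e2]
        nlinarith [hx.1, hx.2]
      · calc ‖((1 - x : ℝ) : ℂ) * r + (x : ℂ) * w‖ ≤ ‖((1 - x : ℝ) : ℂ) * r‖ + ‖(x : ℂ) * w‖ :=
              norm_add_le _ _
          _ = (1 - x) * r + x * ‖w‖ := by
              rw [norm_mul, norm_mul, hnr, Complex.norm_real, Complex.norm_real, Real.norm_eq_abs,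
                Real.norm_eq_abs, abs_of_nonneg (by linarith [hx.2] : 0 ≤ 1 - x), abs_of_nonneg hx.1]
          _ ≤ 2 * R := by nlinarith [hx.1, hx.2])
    refine h1.trans (mul_le_mul_of_nonneg_left (Real.exp_le_exp.2 ?_) (norm_nonneg _))
    have e3 : I * (t : ℂ) + w - (I * t + r) = w - r := by ring
    rw [e3]
    have e4 : (w - (r : ℂ)).re = w.re - r := by simp
    rw [e4]
    have h5 : ‖w - (r : ℂ)‖ ≤ 2 * (R + 1) := by
      refine (norm_sub_le _ _).trans ?_
      rw [hnr]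
      linarith
    have h6 := hηO ‖w - (r : ℂ)‖ (norm_nonneg _) h5
    linarith
  constructor
  · exact Pool.Agent.H24R2.JP.B1h.XX_diff.comp ((differentiable_id.const_mul _).const_add _)
  · intro z
    have e : I * t + (r : ℂ) * (-((starRingEnd ℂ) z)) = -((starRingEnd ℂ) (I * t + r * z)) := by
      rw [map_add, map_mul, map_mul, Complex.conj_I, Complex.conj_ofReal, Complex.conj_ofReal]
      ring
    show XX (I * t + (r : ℂ) * (-((starRingEnd ℂ) z))) = (starRingEnd ℂ) (XX (I * t + r * z))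
    rw [e, Pool.Agent.H24R2.DZ.XBAux.xsymm]
  · intro z hz1 hz2
    have hw1 : x0 ≤ ((r : ℂ) * z).re := by
      rw [hre]
      have : r0 * (1 - κ) ≤ r * z.re := mul_le_mul hrr hz1 (by linarith) hr0'.le
      linarith
    obtain ⟨k1, k2⟩ := hF ((r : ℂ) * z) hw1 (hrw z hz2)
    refine ⟨k1, ?_⟩
    rw [Pool.Agent.H986R2.K4.NormAux.logDeriv_scale]
    have e1 : (r : ℂ) * logDeriv XX (I * t + r * z) - (n : ℂ) =
        r * (logDeriv XX (I * t + r * z) - (Om t : ℂ)) := by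
      have : (n : ℂ) = (r : ℂ) * (Om t : ℂ) := by
        rw [← Complex.ofReal_mul, hrO, Complex.ofReal_natCast]
      rw [this]
      ring
    rw [e1, norm_mul, Complex.norm_real, Real.norm_eq_abs, abs_of_pos hr0']
    calc r * ‖logDeriv XX (I * t + r * z) - (Om t : ℂ)‖ ≤ r * (η2 * Om t) := by gcongr
      _ = η2 * n := by rw [← hrO]; ring
      _ ≤ η * n := by gcongr
  · -- near
    have hpos : ∀ z : ℂ, 0 ≤ z.re → z.re ≤ 1 - κ → ‖z‖ ≤ R → ‖XX (I * t + (r : ℂ) * z)‖ ≤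
        ‖XX (I * t + r)‖ * Real.exp (-(κ / 2 * n)) := by
      intro z hz0 hz1 hz2
      have hwR := hrw z hz2
      rcases le_total (((r : ℂ) * z).re) x0 with hw | hw
      · have h1 := hnear t x0 htn hε1 hx (fun w hw1 hw2 => by
          obtain ⟨a1, a2⟩ := hfar w hw1 (hw2.trans (le_max_left _ _))
          exact ⟨a1, a2.trans (by gcongr)⟩) ((r : ℂ) * z) (by
          rw [abs_le]
          refine ⟨?_, hw⟩
          rw [hre]
          have : 0 ≤ r * z.re := by positivity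
          linarith) hwR
        have h2 := hseg 1 (by rw [Complex.one_re]; linarith) (by rw [norm_one]; linarith)
        rw [Complex.one_re] at h2
        refine h1.trans ?_
        calc ‖XX (I * t + 1)‖ * Real.exp (-((1 - x0 - ε) * Om t))
            ≤ (‖XX (I * t + r)‖ * Real.exp (Om t * (1 - r) + κ / 8 * n)) *
              Real.exp (-((1 - x0 - ε) * Om t)) := by gcongr
          _ = ‖XX (I * t + r)‖ * Real.exp ((Om t * (1 - r) + κ / 8 * n) + (-((1 - x0 - ε) * Om t))) := by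
              rw [mul_assoc, ← Real.exp_add]
          _ ≤ _ := by
              apply mul_le_mul_of_nonneg_left (Real.exp_le_exp.2 ?_) (norm_nonneg _)
              have a1 : x0 * Om t ≤ (1 - κ) * n := by
                calc x0 * Om t ≤ r0 * (1 - κ) * Om t := by gcongr
                  _ = (1 - κ) * (r0 * Om t) := by ring
                  _ ≤ (1 - κ) * n := mul_le_mul_of_nonneg_left hn1 (by linarith)
              have a2 : ε * Om t ≤ κ / 8 * n := by
                calc ε * Om t ≤ κ * r0 / 8 * Om t := by gcongr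
                  _ = κ / 8 * (r0 * Om t) := by ring
                  _ ≤ κ / 8 * n := by gcongr
              have a3 : Om t * r = n := by rw [mul_comm]; exact hrO
              nlinarith
      · have h1 := hseg ((r : ℂ) * z) hw hwR
        refine h1.trans (mul_le_mul_of_nonneg_left (Real.exp_le_exp.2 ?_) (norm_nonneg _))
        rw [hre]
        have a1 : Om t * (r * z.re - r) = n * (z.re - 1) := by rw [← hrO]; ring
        rw [a1]
        nlinarith
    intro z hz1 hz2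
    rw [abs_le] at hz1
    have e0 : XX (I * t + (r : ℂ) * 1) = XX (I * t + r) := by rw [mul_one]
    show ‖XX (I * t + (r : ℂ) * z)‖ ≤ ‖XX (I * t + (r : ℂ) * 1)‖ * Real.exp (-(κ / 2 * n))
    rw [e0]
    rcases le_total 0 z.re with h | h
    · exact hpos z h hz1.2 hz2
    · have h3 := hpos (-((starRingEnd ℂ) z)) (by simpa using h) (by
        rw [Complex.neg_re, Complex.conj_re]; linarith) (by
        rw [norm_neg, RCLike.norm_conj]; exact hz2)
      have e : I * t + (r : ℂ) * (-((starRingEnd ℂ) z)) = -((starRingEnd ℂ) (I * t + r * z)) := by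
        rw [map_add, map_mul, map_mul, Complex.conj_I, Complex.conj_ofReal, Complex.conj_ofReal]
        ring
      rw [e, Pool.Agent.H24R2.DZ.XBAux.xsymm, RCLike.norm_conj] at h3
      exact h3

open Pool.Agent.H986R2.K4 in
/-- no bad zeros at a height without zeros of zeta far from the line -/
theorem locwin (y r0 : ℝ) (hy : 0 ≤ y) (hy1 : y < 1 / 2) (hyr : y < r0) (hr1 : r0 ≤ 1) :
    ∃ R2 T0 : ℝ, 1 ≤ R2 ∧ 2 ≤ T0 ∧ ∀ (t : ℝ) (n : ℕ), T0 ≤ t → r0 * Om t ≤ n →
      (n : ℝ) ≤ 2 * r0 * Om t → (∀ ρ : ℂ, FF ρ = 0 → 1 / 2 + y ≤ ρ.re → R2 < |ρ.im - t|) →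
      ∀ s : ℂ, s.im = t → ¬ bad n s := by
  have hr0 : 0 < r0 := by linarith
  obtain ⟨x0, hx0⟩ : ∃ x0 : ℝ, x0 = (y + min r0 (1 / 2)) / 2 := ⟨_, rfl⟩
  have hm1 : y < min r0 (1 / 2) := lt_min hyr hy1
  have hm2 : min r0 (1 / 2) ≤ r0 := min_le_left _ _
  have hm3 : min r0 (1 / 2) ≤ 1 / 2 := min_le_right _ _
  have hx1 : y < x0 := by rw [hx0]; linarith
  have hx2 : x0 ≤ 1 / 2 := by rw [hx0]; linarith
  have hx3 : x0 < r0 := by rw [hx0]; linarith
  obtain ⟨κ, hκ⟩ : ∃ κ : ℝ, κ = min (1 / 2) (1 - x0 / r0) := ⟨_, rfl⟩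
  have hq : x0 / r0 < 1 := by rw [div_lt_one hr0]; exact hx3
  have hκ0 : 0 < κ := by rw [hκ]; exact lt_min (by norm_num) (by linarith)
  have hκ1 : κ ≤ 1 / 2 := by rw [hκ]; exact min_le_left _ _
  have hκ2 : κ ≤ 1 - x0 / r0 := by rw [hκ]; exact min_le_right _ _
  have hxr : x0 ≤ r0 * (1 - κ) := by
    have h1 : x0 / r0 ≤ 1 - κ := by linarith
    rw [div_le_iff₀ hr0] at h1
    linarith
  obtain ⟨R, hRdef⟩ : ∃ R : ℝ, R = 1 / (2 * r0) + 3 := ⟨_, rfl⟩
  have hR : 3 ≤ R := by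
    have : 0 < 1 / (2 * r0) := by positivity
    linarith
  obtain ⟨κ1, η1, n1, hκ10, hκ1κ, hη1, H3⟩ := nl (rt lapQ) κ R hκ0 hκ1 hR
  obtain ⟨η2, n2, hη2, H2⟩ := aw lapQ κ R κ1 hκ0 hκ1 hR hκ10 hκ1κ
  obtain ⟨R2, η3, T1, hR2, hη3, hT1, H1⟩ := locq x0 r0 κ R (min η1 η2) (by linarith) hx2 hxr hr1 hr0
    hκ0 hκ1 hR (lt_min hη1 hη2)
  obtain ⟨T2, hT2, hfar⟩ := far2 R2 x0 η3 y hR2 hy hy1 hx1 hη3
  refine ⟨R2 + 20, max (max T1 T2) (Real.exp (2 * (max n1 n2 : ℕ) / r0)), by linarith,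
    hT1.trans ((le_max_left _ _).trans (le_max_left _ _)), ?_⟩
  intro t n ht hn1 hn2 hfree s hs hbad
  have htT1 : T1 ≤ t := ((le_max_left _ _).trans (le_max_left _ _)).trans ht
  have htT2 : T2 ≤ t := ((le_max_right _ _).trans (le_max_left _ _)).trans ht
  have htE : Real.exp (2 * (max n1 n2 : ℕ) / r0) ≤ t := (le_max_right _ _).trans ht
  have ht2 : 2 ≤ t := hT1.trans htT1
  have hlog : 2 * ((max n1 n2 : ℕ) : ℝ) / r0 ≤ Real.log t :=
    (Real.le_log_iff_exp_le (by linarith)).2 htE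
  have hlog0 : 0 < Real.log t := Real.log_pos (by linarith)
  have hOm : 0 < Om t := by unfold Om; positivity
  have hnn : ((max n1 n2 : ℕ) : ℝ) ≤ n := by
    refine le_trans ?_ hn1
    rw [div_le_iff₀ hr0] at hlog
    unfold Om
    linarith
  have hnn' : max n1 n2 ≤ n := by exact_mod_cast hnn
  have hn0 : (0 : ℝ) < n := lt_of_lt_of_le (by positivity) hn1
  set r : ℝ := n / Om t with hr
  have hrpos : 0 < r := by positivity
  have hrr0 : r0 ≤ r := by rw [hr, le_div_iff₀ hOm]; exact hn1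
  have hrc : (r : ℂ) ≠ 0 := by exact_mod_cast hrpos.ne'
  have hQ := H1 t n htT1 hn1 hn2 (hfar t htT2 hfree)
  set x : ℝ := s.re / r with hx
  have hsx : I * (t : ℂ) + (r : ℂ) * (x : ℂ) = s := by
    have e1 : (r : ℂ) * (x : ℂ) = (s.re : ℂ) := by
      rw [hx]; push_cast; field_simp
    rw [e1, ← hs]
    apply Complex.ext <;> simp
  have hder : ∀ m : ℕ, iteratedDeriv m (fun z : ℂ => XX (I * t + ((r : ℝ) : ℂ) * z)) (x : ℂ) =
      (r : ℂ) ^ m * iteratedDeriv m XX s := by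
    intro m
    rw [WinAux.scale WinAux.diffXX (I * t) r m, hsx]
  have hzero : iteratedDeriv n (fun z : ℂ => XX (I * t + ((r : ℝ) : ℂ) * z)) (x : ℂ) = 0 := by
    rw [hder, hbad.1, mul_zero]
  have hstrip := Pool.Agent.H24R2.DZ.strip n s hbad.1
  by_cases hc : κ1 ≤ |x|
  · refine H2 n _ ((le_max_right _ _).trans hnn') (WinAux.mono (min_le_right _ _) hQ) x hc ?_ hzero
    have e1 : |x| = |s.re| / r := by rw [hx, abs_div, abs_of_pos hrpos]
    rw [e1, div_le_iff₀ hrpos]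
    have e2 : (1 : ℝ) / 2 ≤ 1 / (2 * r0) * r := by
      rw [div_mul_eq_mul_div, one_mul, div_le_div_iff₀ (by norm_num) (by positivity)]
      linarith
    have e3 : (R - 2) * r = 1 / (2 * r0) * r + r := by rw [hRdef]; ring
    rw [e3]
    linarith
  · push Not at hc
    obtain ⟨h5, h6⟩ := H3 n _ ((le_max_left _ _).trans hnn') (WinAux.mono (min_le_left _ _) hQ) x hc.le
      hzero
    rcases hbad.2 with h7 | h7
    · apply h7
      rw [hx] at h5
      exact (div_eq_zero_iff.1 h5).resolve_right hrpos.ne'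
    · apply h6
      rw [hder, h7, mul_zero]

end Pool.Agent.U762.DX
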