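import Pool.Agent.U762.DX.Lcv
import Pool.Agent.U762.DX.Cnt

set_option autoImplicit false

/-! # Few off-line zeros of the derivatives: few zeros of zeta near the edge -/

namespace Pool.Agent.U762.DX

open Complex Filter Topology MeasureTheory Set
open Pool.Agent.H24R2.JP (XX HH Om)
open Pool.Agent.W190 (ZF mem_ZF)
open H353 (FF mu mu_pos local_count)

/-- a long window -/
theorem longw (h t : ℝ) (ht : 0 ≤ t) (S : Finset ℂ)
    (hS : ∀ ρ ∈ S, FF ρ = 0 ∧ 1 / 2 ≤ ρ.re ∧ |t - ρ.im| ≤ 20) (hh : t + 25 ≤ h) :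
    ∑ ρ ∈ S, (mu ρ : ℝ) ≤ 41 * (60 * Real.log (22 * h ^ 2)) := by
  classical
  have h1 := cover S (Finset.range 41) (fun j ρ => |ρ.im - (t - 20 + j)| ≤ 1) (fun ρ => (mu ρ : ℝ))
    (60 * Real.log (22 * h ^ 2)) (fun _ => Nat.cast_nonneg _)
    (fun ρ hρ => by
      have h2 := abs_le.1 (hS ρ hρ).2.2
      have h3 : 0 ≤ ρ.im - (t - 20) := by linarith
      refine ⟨⌊ρ.im - (t - 20)⌋₊, ?_, ?_⟩
      · rw [Finset.mem_range, Nat.floor_lt h3]
        push_cast
        linarith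
      · have h4 := Nat.floor_le h3
        have h5 := Nat.lt_floor_add_one (ρ.im - (t - 20))
        rw [abs_le]
        constructor <;> linarith)
    (fun j hj => by
      rw [Finset.mem_range] at hj
      have hj' : (j : ℝ) ≤ 40 := by exact_mod_cast (by omega : j ≤ 40)
      have hj0 : (0 : ℝ) ≤ j := Nat.cast_nonneg j
      have h2 := local_count (t - 20 + j) (S.filter (fun ρ => |ρ.im - (t - 20 + j)| ≤ 1))
        (fun ρ hρ => by
          rw [Finset.mem_filter] at hρ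
          exact ⟨(hS ρ hρ.1).1, (hS ρ hρ.1).2.1, hρ.2⟩)
      rw [Nat.cast_sum] at h2
      refine h2.trans ?_
      have h3 : |t - 20 + j| ≤ t + 20 := by
        rw [abs_le]
        constructor <;> linarith
      have h4 : 0 ≤ |t - 20 + j| := abs_nonneg _
      gcongr
      linarith)
  rw [Finset.card_range] at h1
  push_cast at h1
  exact h1

/-- few off-line zeros of the derivatives imply few zeros of zeta -/
theorem ncv (κ : ℝ) (hκ : 4 < κ) : ∃ σ : ℝ, 1 / 2 ≤ σ ∧ σ < 1 ∧ ∀ f : ℕ → ℝ, Monotone f → (∀ n, 0 ≤ f n) →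
    (∃ N : ℕ, ∀ n : ℕ, N ≤ n → ∀ S : Finset ℂ,
      (∀ w ∈ S, iteratedDeriv n XX w = 0 ∧ w.re ≠ 0 ∧ 0 < w.im ∧ w.im ≤ Real.exp (κ * n)) →
      (S.card : ℝ) ≤ f n) →
    ∃ C : ℝ, 0 ≤ C ∧ ∀ T : ℝ, 1 ≤ T → ∀ S : Finset ℂ,
      (∀ ρ ∈ S, FF ρ = 0 ∧ σ < ρ.re ∧ 0 < ρ.im ∧ ρ.im ≤ T) →
      ∑ ρ ∈ S, (mu ρ : ℝ) ≤ C + C * (1 + Real.log T) ^ 2 * f ⌊Real.log T / 4⌋₊ := by
  classical
  obtain ⟨σ, κ1, κ2, T1, hσ, hσ1, hκ1, hκ12, hκ2, hT1, hloc⟩ := lconv κ hκ
  refine ⟨σ, hσ, hσ1, fun f hf hf0 ⟨N, hN⟩ => ?_⟩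
  have hκ0 : 0 < κ := by linarith
  -- large `n`
  have e1 : ∀ᶠ n : ℕ in atTop, T1 + 30 ≤ Real.exp (κ1 * n) := by
    have h1 : Tendsto (fun n : ℕ => Real.exp (κ1 * n)) atTop atTop :=
      Real.tendsto_exp_atTop.comp (tendsto_natCast_atTop_atTop.const_mul_atTop (by linarith))
    exact h1.eventually_ge_atTop _
  have e2 : ∀ᶠ n : ℕ in atTop, κ1 * (n + 1) ≤ κ2 * n := by
    have h1 : Tendsto (fun n : ℕ => (κ2 - κ1) * (n : ℝ)) atTop atTop :=
      tendsto_natCast_atTop_atTop.const_mul_atTop (by linarith)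
    filter_upwards [h1.eventually_ge_atTop κ1] with n hn
    linarith
  have e3 : ∀ᶠ n : ℕ in atTop, Real.exp (κ2 * n) + 45 ≤ Real.exp (κ * n) := by
    have h1 : Tendsto (fun n : ℕ => (κ - κ2) * (n : ℝ)) atTop atTop :=
      tendsto_natCast_atTop_atTop.const_mul_atTop (by linarith)
    filter_upwards [h1.eventually_ge_atTop 45] with n hn
    have h2 : Real.exp (κ * n) = Real.exp (κ2 * n) * Real.exp ((κ - κ2) * n) := by
      rw [← Real.exp_add]; congr 1; ring
    have h3 : 46 ≤ Real.exp ((κ - κ2) * n) := by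
      have := Real.add_one_le_exp ((κ - κ2) * (n : ℝ))
      linarith
    have h4 : 1 ≤ Real.exp (κ2 * n) := Real.one_le_exp (mul_nonneg (by linarith) (Nat.cast_nonneg n))
    rw [h2]
    nlinarith
  obtain ⟨N0, hN0⟩ := eventually_atTop.1 (e1.and (e2.and (e3.and (eventually_ge_atTop (max N 1)))))
  -- the bound for one `n`
  have hone : ∀ n : ℕ, N0 ≤ n → ∀ S : Finset ℂ, (∀ ρ ∈ S, FF ρ = 0 ∧ σ < ρ.re ∧
      Real.exp (κ1 * n) ≤ ρ.im ∧ ρ.im ≤ Real.exp (κ2 * n)) →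
      ∑ ρ ∈ S, (mu ρ : ℝ) ≤ f n * (41 * (60 * Real.log (22 * Real.exp (κ * n) ^ 2))) := by
    intro n hn S hS
    obtain ⟨g1, g2, g3, g4⟩ := hN0 n hn
    have hNn : N ≤ n := (le_max_left _ _).trans g4
    have hex : ∀ ρ : ℂ, ρ ∈ S → ∃ w : ℂ, iteratedDeriv n XX w = 0 ∧ |w.im - ρ.im| ≤ 20 ∧ w.re ≠ 0 := by
      intro ρ hρ
      obtain ⟨h1, h2, h3, h4⟩ := hS ρ hρ
      refine hloc ρ n ?_ h2 (by linarith) h3 h4
      have hne : ρ ≠ 1 := by
        intro he
        rw [he, one_im] at h3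
        linarith
      have h5 : FF ρ = (ρ - 1) * riemannZeta ρ := ZU.J_g2b.FF_ne hne
      rw [h5] at h1
      rcases mul_eq_zero.1 h1 with h | h
      · exact absurd (sub_eq_zero.1 h) hne
      · exact h
    choose! w hw1 hw2 hw3 using hex
    have hcard := hN n hNn (S.image w) (fun v hv => by
      rw [Finset.mem_image] at hv
      obtain ⟨ρ, hρ, rfl⟩ := hv
      obtain ⟨h1, h2, h3, h4⟩ := hS ρ hρ
      have h5 := abs_le.1 (hw2 ρ hρ)
      exact ⟨hw1 ρ hρ, hw3 ρ hρ, by linarith, by linarith⟩)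
    have hlog : 0 ≤ Real.log (22 * Real.exp (κ * n) ^ 2) := by
      apply Real.log_nonneg
      have : 1 ≤ Real.exp (κ * n) := Real.one_le_exp (by positivity)
      nlinarith
    have h1 := cover S (S.image w) (fun v ρ => |v.im - ρ.im| ≤ 20) (fun ρ => (mu ρ : ℝ))
      (41 * (60 * Real.log (22 * Real.exp (κ * n) ^ 2))) (fun _ => Nat.cast_nonneg _)
      (fun ρ hρ => ⟨w ρ, Finset.mem_image_of_mem w hρ, hw2 ρ hρ⟩)
      (fun v hv => by
        rw [Finset.mem_image] at hv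
        obtain ⟨ρ, hρ, rfl⟩ := hv
        obtain ⟨h1, h2, h3, h4⟩ := hS ρ hρ
        have h5 := abs_le.1 (hw2 ρ hρ)
        refine longw (Real.exp (κ * n)) (w ρ).im (by linarith) _ (fun ρ' hρ' => ?_) (by linarith)
        rw [Finset.mem_filter] at hρ'
        obtain ⟨k1, k2, -, -⟩ := hS ρ' hρ'.1
        exact ⟨k1, by linarith, hρ'.2⟩)
    refine h1.trans ?_
    gcongr
  -- the constants
  have he4 : ∀ (T : ℝ) (M : ℕ), 1 ≤ T → (M : ℝ) ≤ Real.log T → (M + 1 : ℝ) *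
      (f M * (41 * (60 * Real.log (22 * Real.exp (κ * M) ^ 2)))) ≤
        41 * 60 * (22 + 2 * κ) * (1 + Real.log T) ^ 2 * f M := by
    intro T M hT hMT
    have hM0 : (0 : ℝ) ≤ M := Nat.cast_nonneg M
    have hl : Real.log (22 * Real.exp (κ * M) ^ 2) ≤ (22 + 2 * κ) * (M + 1) := by
      rw [Real.log_mul (by norm_num) (by positivity), Real.log_pow, Real.log_exp]
      have := Real.log_le_sub_one_of_pos (show (0 : ℝ) < 22 by norm_num)
      push_cast
      nlinarith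
    have hfM := hf0 M
    calc (M + 1 : ℝ) * (f M * (41 * (60 * Real.log (22 * Real.exp (κ * M) ^ 2))))
        ≤ (M + 1 : ℝ) * (f M * (41 * (60 * ((22 + 2 * κ) * (M + 1))))) := by gcongr
      _ = 41 * 60 * (22 + 2 * κ) * (M + 1 : ℝ) ^ 2 * f M := by ring
      _ ≤ 41 * 60 * (22 + 2 * κ) * (1 + Real.log T) ^ 2 * f M := by
          have : (M + 1 : ℝ) ^ 2 ≤ (1 + Real.log T) ^ 2 := by
            apply pow_le_pow_left₀ (by positivity)
            linarith
          gcongr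
  -- the low zeros
  set Z : Finset ℂ := ZF σ (Real.exp (κ1 * N0) - 3) with hZ
  have hmem : ∀ ρ : ℂ, ρ ∈ Z ↔ FF ρ = 0 ∧ σ ≤ ρ.re ∧ |ρ.im| ≤ Real.exp (κ1 * N0) := by
    intro ρ
    rw [hZ, mem_ZF]
    have : Real.exp (κ1 * N0) - 3 + 3 = Real.exp (κ1 * N0) := by ring
    rw [this]
  have hZ0 : 0 ≤ ∑ ρ ∈ Z, (mu ρ : ℝ) := Finset.sum_nonneg fun _ _ => Nat.cast_nonneg _
  refine ⟨41 * 60 * (22 + 2 * κ) + ∑ ρ ∈ Z, (mu ρ : ℝ), by positivity, fun T hT S hS => ?_⟩
  have hT0 : 0 < T := by linarith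
  rw [← Finset.sum_filter_add_sum_filter_not S (fun ρ => ρ.im < Real.exp (κ1 * N0))]
  have hlow : ∑ ρ ∈ S.filter (fun ρ => ρ.im < Real.exp (κ1 * N0)), (mu ρ : ℝ) ≤ ∑ ρ ∈ Z, (mu ρ : ℝ) := by
    apply Finset.sum_le_sum_of_subset_of_nonneg
    · intro ρ hρ
      rw [Finset.mem_filter] at hρ
      obtain ⟨h1, h2, h3, h4⟩ := hS ρ hρ.1
      rw [hmem, abs_of_pos h3]
      exact ⟨h1, h2.le, hρ.2.le⟩
    · intro ρ _ _
      exact Nat.cast_nonneg _
  set M : ℕ := ⌊Real.log T / κ1⌋₊ with hM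
  have hlogT : 0 ≤ Real.log T := Real.log_nonneg hT
  have hM1 : (M : ℝ) ≤ Real.log T / κ1 := Nat.floor_le (by positivity)
  have hhigh : ∑ ρ ∈ S.filter (fun ρ => ¬ ρ.im < Real.exp (κ1 * N0)), (mu ρ : ℝ) ≤
      41 * 60 * (22 + 2 * κ) * (1 + Real.log T) ^ 2 * f ⌊Real.log T / 4⌋₊ := by
    have h1 := cover (S.filter (fun ρ => ¬ ρ.im < Real.exp (κ1 * N0))) (Finset.range (M + 1))
      (fun n ρ => N0 ≤ n ∧ Real.exp (κ1 * n) ≤ ρ.im ∧ ρ.im ≤ Real.exp (κ2 * n)) (fun ρ => (mu ρ : ℝ))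
      (f M * (41 * (60 * Real.log (22 * Real.exp (κ * M) ^ 2))))
      (fun _ => Nat.cast_nonneg _)
      (fun ρ hρ => by
        rw [Finset.mem_filter, not_lt] at hρ
        obtain ⟨h1, h2, h3, h4⟩ := hS ρ hρ.1
        have hl : κ1 * N0 ≤ Real.log ρ.im := (Real.le_log_iff_exp_le h3).2 hρ.2
        have hl0 : 0 ≤ Real.log ρ.im / κ1 := by
          have : 0 ≤ κ1 * (N0 : ℝ) := mul_nonneg (by linarith) (Nat.cast_nonneg _)
          apply div_nonneg (by linarith) (by linarith)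
        have f1 := Nat.floor_le hl0
        have f2 := Nat.lt_floor_add_one (Real.log ρ.im / κ1)
        rw [le_div_iff₀ (by linarith)] at f1
        rw [div_lt_iff₀ (by linarith)] at f2
        have hn : N0 ≤ ⌊Real.log ρ.im / κ1⌋₊ := by
          apply Nat.le_floor
          rw [le_div_iff₀ (by linarith)]
          linarith
        obtain ⟨g1, g2, g3, g4⟩ := hN0 _ hn
        refine ⟨⌊Real.log ρ.im / κ1⌋₊, ?_, hn, ?_, ?_⟩
        · rw [Finset.mem_range, Nat.lt_succ_iff]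
          apply Nat.floor_le_floor
          have := Real.log_le_log h3 h4
          gcongr
        · rw [← Real.le_log_iff_exp_le h3]
          linarith
        · rw [← Real.log_le_iff_le_exp h3]
          linarith)
      (fun n hn => by
        rw [Finset.mem_range, Nat.lt_succ_iff] at hn
        by_cases hnN : N0 ≤ n
        · refine (hone n hnN _ (fun ρ hρ => ?_)).trans ?_
          · rw [Finset.mem_filter, Finset.mem_filter] at hρ
            obtain ⟨⟨h1, -⟩, -, h3, h4⟩ := hρ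
            exact ⟨(hS ρ h1).1, (hS ρ h1).2.1, h3, h4⟩
          · have hnM : (n : ℝ) ≤ M := by exact_mod_cast hn
            have hl0 : 0 ≤ Real.log (22 * Real.exp (κ * n) ^ 2) := by
              apply Real.log_nonneg
              have : 1 ≤ Real.exp (κ * n) := Real.one_le_exp (by positivity)
              nlinarith
            have hfM := hf0 M
            have hfn := hf hn
            gcongr
        · rw [Finset.sum_eq_zero]
          · have hl0 : 0 ≤ Real.log (22 * Real.exp (κ * M) ^ 2) := by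
              apply Real.log_nonneg
              have : 1 ≤ Real.exp (κ * M) := Real.one_le_exp (by positivity)
              nlinarith
            have hfM := hf0 M
            positivity
          · intro ρ hρ
            rw [Finset.mem_filter] at hρ
            exact absurd hρ.2.1 hnN)
    rw [Finset.card_range] at h1
    push_cast at h1
    have hMT : (M : ℝ) ≤ Real.log T := by
      refine hM1.trans (div_le_self hlogT (by linarith))
    refine h1.trans ((he4 T M hT hMT).trans ?_)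
    have h2 : f M ≤ f ⌊Real.log T / 4⌋₊ := by
      apply hf
      apply Nat.floor_le_floor
      exact div_le_div_of_nonneg_left hlogT (by norm_num) hκ1.le
    gcongr
  have hfT := hf0 ⌊Real.log T / 4⌋₊
  have h5 : 0 ≤ (∑ ρ ∈ Z, (mu ρ : ℝ)) * (1 + Real.log T) ^ 2 * f ⌊Real.log T / 4⌋₊ := by positivity
  have h6 : 0 ≤ 41 * 60 * (22 + 2 * κ) := by positivity
  nlinarith

end Pool.Agent.U762.DX
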